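import Pool.Agent.H639R3.Z.Fin

set_option autoImplicit false

/-!
# MP_dfc37b_nt, Q1: the degree of the splitting field of the numerator of the zeta function of `X_n`
tends to infinity in every `ℤ_p`-tower of curves with finite ramification locus

Idea: suppose that `[ℚ_n : ℚ] ≤ B` for infinitely many `n`.  The reciprocal roots of `P(X_n, s)` are
algebraic integers of absolute value at most `q` (this follows from `N_m(X_n) ≥ 0`), so for these `n`
they all lie in one finite set, and the sequences `m ↦ N_m(X_n)` satisfy one linear recurrence.  On
the other hand `N_m(X_n) = p ^ n * M_m + O(1)` for `n ≥ n_0(m)`, where the error is the contribution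
of the ramified points and is bounded independently of `m` and `n`.  By the recurrence this holds for
all `m` at once, for a pair `a < b` of levels, and `p ^ b * N_m(X_a) - p ^ a * N_m(X_b)` is bounded
independently of `m`, which contradicts the pole of `Z(X_n, s)` at `s = 1 / q`.
-/

namespace Pool.Agent.Results.MP_dfc37b_nt.ZetaSplittingDegree

open Pool.Agent.H639R3

/-- For every `ℤ_p`-tower of curves over a finite field `k` of characteristic `p` with finite
ramification locus, the degree over `ℚ` of the splitting field (inside `ℂ`) of the numerator
`P(X_n, s) = (1 - s) (1 - q s) Z(X_n, s)` of the zeta function of the `n`-th curve `X_n` of the tower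
tends to infinity with `n`. -/
theorem result (p : ℕ) [Fact p.Prime] (k K L : Type) [Field k] [Finite k] [CharP k p]
    [Field K] [Field L] [Algebra k K] [Algebra K L] [Algebra k L] [IsScalarTower k K L]
    (T : ZpTower p k K L) (B : ℕ) :
    ∃ N : ℕ, ∀ n, N ≤ n →
      (B : Cardinal) ≤ Module.rank ℚ (splittingField ℚ (zetaNumerator k (T.layer n))) :=
  zeta_tower p k K L T B

end Pool.Agent.Results.MP_dfc37b_nt.ZetaSplittingDegree
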